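import Mathlib
import Pool.Agent.Run7.h816.MG.Marg2

/-!
# Margulis' injectivity radius conjecture over fields with few Frobenius automorphisms

Let `Γ` be a torsion-free arithmetic group over a number field `k` of degree `m` with set `S` of
noncompact embeddings, realized by integral matrices of size `n`.  Let `E` be a number field which is
Galois over `ℚ`, such that `k` is contained in an extension of `E` of degree at most `D` (`D = 1`: `k`
is contained in `E`, for instance `E` is the Galois closure of `k`), let `p` be a prime number with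
ramification indices at most `e` in `E`, let `a ≥ 1`, and let `f` be the number of the automorphisms
of `E` which act as `x ↦ x ^ (p ^ a)` on the residue field of at least one prime of `E` above `p`.
(If `p` is unramified these are the `a`-th powers of the Frobenius automorphisms above `p`, which form
one conjugacy class of the Galois group.)  Then every `γ ≠ 1` in `Γ` has an eigenvalue `l` with

  `log |l| ≥ c (m / |S|) / ((D n) ^ 9 p ^ (a + 1) e f exp (18 √(log (2 e f) log (2 D n))))`

where `c > 0` is an absolute constant.  So, for fixed `D` and `n`, all these groups with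
`|S| p ^ (a + 1) e f ≤ m ^ (1 - ε)` form a uniformly discrete family, and their elements even have
eigenvalues which grow exponentially with a power of `m`.  The Galois closures of the fields generated
by the eigenvalues (and of `k` if `D > 1`) have, in general, degrees exponential in `m`, with as many
Frobenius automorphisms, and `p` may be ramified in any way above `E`; no condition is imposed on
them.

`Pool.Agent.H225R3.MargDefs` contains the definitions: `Realization ρ Γ k n S` (a homomorphism `r`
from `Γ` to the `n` by `n` matrices over the ring of integers of the number field `k`, bounded under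
all embeddings outside `S`, such that for `σ` in `S` the eigenvalues of `σ (r γ)` are eigenvalues of
`ρ γ`, and such that only `1` is mapped to a unipotent matrix) and `UniformlyDiscrete` (there is an
identity neighbourhood `U` such that `g U g⁻¹` meets every group of the family in the identity only).

Method.  Let `α` be an eigenvalue of `r γ` which is not a root of unity, a unit, of degree at most `n`
over `k` and so at most `D n` over `E`, and let `K` be a number field, Galois over `ℚ`, which contains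
`E` and `α`, with Galois group `N` over `E`.  The heights of the conjugates of `α` are at most
`[K : k] |S| log |l|`.  In the following `D = 1`.

(a) If there are `r` multiplicatively independent conjugates `B_1, …, B_r`, where `r` is of the order
of `√(log (2 e f) / log (2 n))`, consider the products `w` of the numbers `B_j ^ q / σ B_j`, `q = p ^ a`,
with small exponents, where `σ` is a Frobenius automorphism of `K`.  For primes whose Frobenius
automorphism is in the coset `σ N` there are at most `n ^ r` possibilities for the images of the `B_j`,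
and for some choice many differences `x = w - w'` lie in a large part of the primes of `K` above `p`.
The product `y` of the conjugates of `x` under `N`, of which there are at most `n ^ (2 r)`, is in `E`;
its order at a prime of `E` above `p` is that of `p` divided by at most `e`, and this gives a lower
bound of the norm of `x` which does not depend on the ramification of `p` in `K / E`.

(b) If there are fewer independent conjugates, let `M` be the group of the automorphisms in `N` which
fix the absolute values of all conjugates of `α`.  The product `β` of the conjugates of `α` under `M`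
has the same absolute values as a power of `α` with exponent at most `n`, and is in a field of degree
at most `n ^ r` over `E`, so that `p` has ramification indices at most `e n ^ r` there.  The theorem
for fields with bounded ramification indices is applied to `β`.
-/

set_option autoImplicit false

namespace Pool.Agent.Results.MP_162bbe_gt.FewFrobeniusTraceField

open NumberField Module Pool.Agent.H225R3.Marg

universe u

/-- The automorphisms of the number field `E` which are the map `x ↦ x ^ (p ^ a)` modulo at least one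
prime ideal of `E` above `p`. -/
def frobenii (E : Type) [Field E] [NumberField E] (p a : ℕ) : Set (E ≃ₐ[ℚ] E) :=
  {σ | ∃ P : Ideal (𝓞 E), P.IsPrime ∧ (p : 𝓞 E) ∈ P ∧ ∀ x : 𝓞 E, σ • x - x ^ p ^ a ∈ P}

/-- All ramification indices of prime ideals of `E` above `p` are at most `e`. -/
def RamificationLE (E : Type) [Field E] [NumberField E] (p e : ℕ) : Prop :=
  ∀ P : Ideal (𝓞 E), P.IsPrime → (p : 𝓞 E) ∈ P → (p : 𝓞 E) ∉ P ^ (e + 1)

/-- The number `p ^ (a + 1) κ exp (18 √(log (2 κ) log (2 n)))`, where `κ` is `e` times the number of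
the automorphisms in `frobenii E p a`. -/
noncomputable def weight (E : Type) [Field E] [NumberField E] (p a e n : ℕ) : ℝ :=
  (p : ℝ) ^ (a + 1) * (e * (frobenii E p a).ncard) *
    Real.exp (18 * Real.sqrt (Real.log (2 * (e * (frobenii E p a).ncard)) * Real.log (2 * n)))

/-- There is no element of finite order other than the identity. -/
def TorsionFree {G : Type*} [Group G] (Γ : Subgroup G) : Prop :=
  ∀ γ ∈ Γ, ∀ N : ℕ, 0 < N → γ ^ N = 1 → γ = 1

/-- The number field `k` is contained in an extension `F` of `E` of degree at most `D`. -/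
def ContainedIn (k E : Type) [Field k] [NumberField k] [Field E] [NumberField E] (D : ℕ) : Prop :=
  ∃ (F : Type) (_ : Field F) (_ : NumberField F) (_ : Algebra E F) (_ : Algebra k F),
    finrank E F ≤ D

/-- The torsion-free subgroups `Γ` of `G` which have a realization by matrices of size `n` over a
number field `k`, with set of noncompact embeddings `S`, such that for a number field `E` which is
Galois over `ℚ`, with `k` contained in an extension of `E` of degree at most `D`, some prime number
`p` with ramification indices at most `e ≥ 1` in `E`, and some `a ≥ 1`, the number `|S|` times the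
weight `weight E p a e (D n)` is at most `A [k : ℚ]`. -/
def Family (A : ℝ) (D n : ℕ) {G : Type*} [Group G] {M : ℕ}
    (ρ : G →* Matrix (Fin M) (Fin M) ℂ) : Set (Subgroup G) :=
  {Γ | TorsionFree Γ ∧
    ∃ (k : Type) (_ : Field k) (_ : NumberField k) (S : Finset (k →+* ℂ))
      (_ : Realization ρ Γ k n S) (E : Type) (_ : Field E) (_ : NumberField E) (_ : IsGalois ℚ E)
      (p a e : ℕ), ContainedIn k E D ∧ p.Prime ∧ 1 ≤ a ∧ 1 ≤ e ∧ RamificationLE E p e ∧
      S.card * weight E p a e (D * n) ≤ A * finrank ℚ k}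

/-- The torsion-free subgroups `Γ` of `G` which have a realization by matrices of size `n` over a
number field `k` of degree `m`, with set of noncompact embeddings `S`, such that for a number field
`E` which is Galois over `ℚ`, with `k` contained in an extension of `E` of degree at most `D`, some
prime number `p` with ramification indices at most `e ≥ 1` in `E`, and some `a ≥ 1`, the number
`|S| p ^ (a + 1) e |frobenii E p a|` is at most `m ^ (1 - ε)`. -/
def PowerFamily (ε : ℝ) (D n : ℕ) {G : Type*} [Group G] {M : ℕ}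
    (ρ : G →* Matrix (Fin M) (Fin M) ℂ) : Set (Subgroup G) :=
  {Γ | TorsionFree Γ ∧
    ∃ (k : Type) (_ : Field k) (_ : NumberField k) (S : Finset (k →+* ℂ))
      (_ : Realization ρ Γ k n S) (E : Type) (_ : Field E) (_ : NumberField E) (_ : IsGalois ℚ E)
      (p a e : ℕ), ContainedIn k E D ∧ p.Prime ∧ 1 ≤ a ∧ 1 ≤ e ∧ RamificationLE E p e ∧
      (S.card * (p ^ (a + 1) * (e * (frobenii E p a).ncard)) : ℝ) ≤ (finrank ℚ k : ℝ) ^ (1 - ε)}

/-- a bound for the exponential factor -/
lemma exp_factor (ε : ℝ) (hε : 0 < ε) (n : ℕ) : ∃ B : ℝ, 0 < B ∧ ∀ x m : ℝ, 1 ≤ x → x ≤ m →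
    Real.exp (18 * Real.sqrt (Real.log (2 * x) * Real.log (2 * n))) ≤ B * m ^ (ε / 2) := by
  have hL : 0 ≤ |Real.log (2 * n)| := abs_nonneg _
  refine ⟨Real.exp (ε / 2 * Real.log 2 + 162 * |Real.log (2 * n)| / ε), Real.exp_pos _, ?_⟩
  intro x m hx hxm
  have hm : 0 < m := by linarith
  have hlx : 0 ≤ Real.log (2 * x) := Real.log_nonneg (by linarith)
  have h1 : Real.sqrt (Real.log (2 * x) * Real.log (2 * n)) ≤
      Real.sqrt (Real.log (2 * m) * |Real.log (2 * n)|) := by
    apply Real.sqrt_le_sqrt
    have h2 : Real.log (2 * x) ≤ Real.log (2 * m) := Real.log_le_log (by linarith) (by linarith)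
    calc Real.log (2 * x) * Real.log (2 * n) ≤ Real.log (2 * x) * |Real.log (2 * n)| :=
          mul_le_mul_of_nonneg_left (le_abs_self _) hlx
      _ ≤ _ := mul_le_mul_of_nonneg_right h2 hL
  have hlm : 0 ≤ Real.log (2 * m) := Real.log_nonneg (by linarith)
  have h3 : 18 * Real.sqrt (Real.log (2 * m) * |Real.log (2 * n)|) ≤
      ε / 2 * Real.log (2 * m) + 162 * |Real.log (2 * n)| / ε := by
    set y := Real.sqrt (Real.log (2 * m)) with hy
    set z := Real.sqrt |Real.log (2 * n)| with hz
    have hy2 : y ^ 2 = Real.log (2 * m) := Real.sq_sqrt hlm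
    have hz2 : z ^ 2 = |Real.log (2 * n)| := Real.sq_sqrt hL
    rw [Real.sqrt_mul hlm, ← hy, ← hz, ← hy2, ← hz2]
    have h4 : ε / 2 * y ^ 2 + 162 * z ^ 2 / ε - 18 * (y * z) = (ε * y - 18 * z) ^ 2 / (2 * ε) := by
      field_simp
      ring
    have h5 : 0 ≤ (ε * y - 18 * z) ^ 2 / (2 * ε) := by positivity
    linarith
  have h6 : m ^ (ε / 2) = Real.exp (ε / 2 * Real.log m) := by
    rw [Real.rpow_def_of_pos hm, mul_comm]
  rw [h6, ← Real.exp_add]
  apply Real.exp_le_exp.mpr
  have h7 : Real.log (2 * m) = Real.log 2 + Real.log m :=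
    Real.log_mul (by norm_num) hm.ne'
  have h8 : ε / 2 * Real.log (2 * m) = ε / 2 * Real.log 2 + ε / 2 * Real.log m := by
    rw [h7, mul_add]
  linarith

/-- the bound of the helper file in terms of the weight -/
lemma fac_eq (C : ℝ) (E : Type) [Field E] [NumberField E] (p a e n : ℕ) :
    C * (p : ℝ) ^ (a + 1) * Pool.Agent.Run7.h816.MG.fac n
      (e * (Pool.Agent.Run7.h22.frobSet E p (p ^ a)).ncard) = C * n ^ 9 * weight E p a e n := by
  have h1 : Pool.Agent.Run7.h22.frobSet E p (p ^ a) = frobenii E p a := rfl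
  rw [h1]
  unfold Pool.Agent.Run7.h816.MG.fac weight
  push_cast
  ring

lemma weight_nonneg (E : Type) [Field E] [NumberField E] (p a e n : ℕ) : 0 ≤ weight E p a e n := by
  unfold weight
  positivity

/-- the weight and the power of the degree -/
lemma power_weight (ε : ℝ) (hε : 0 < ε) (n : ℕ) : ∃ B : ℝ, 0 < B ∧
    ∀ (k : Type) [Field k] [NumberField k] (s : ℕ), 1 ≤ s →
    ∀ (E : Type) [Field E] [NumberField E] (p a e : ℕ), p.Prime →
    (s * (p ^ (a + 1) * (e * (frobenii E p a).ncard)) : ℝ) ≤ (finrank ℚ k : ℝ) ^ (1 - ε) →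
    s * weight E p a e n ≤ B * (finrank ℚ k : ℝ) ^ (1 - ε / 2) := by
  obtain ⟨B, hB, h⟩ := exp_factor ε hε n
  refine ⟨B, hB, ?_⟩
  intro k _ _ s hs E _ _ p a e hp hle
  have hm : (1 : ℝ) ≤ finrank ℚ k := by exact_mod_cast (finrank_pos : 0 < finrank ℚ k)
  have hm0 : (0 : ℝ) < finrank ℚ k := by linarith
  unfold weight
  rcases Nat.eq_zero_or_pos (e * (frobenii E p a).ncard) with h0 | h0
  · have h1 : ((e : ℝ) * (frobenii E p a).ncard) = 0 := by exact_mod_cast h0
    rw [h1, mul_zero, zero_mul, mul_zero]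
    positivity
  · have h1 : (1 : ℝ) ≤ (e : ℝ) * (frobenii E p a).ncard := by exact_mod_cast h0
    have hsR : (1 : ℝ) ≤ s := by exact_mod_cast hs
    have hpR : (1 : ℝ) ≤ (p : ℝ) ^ (a + 1) := one_le_pow₀ (by exact_mod_cast hp.one_lt.le)
    have h2 : (e : ℝ) * (frobenii E p a).ncard ≤ finrank ℚ k := by
      calc (e : ℝ) * (frobenii E p a).ncard
          ≤ s * (p ^ (a + 1) * (e * (frobenii E p a).ncard)) := by
            have h3 : (e : ℝ) * (frobenii E p a).ncard ≤
                p ^ (a + 1) * (e * (frobenii E p a).ncard) := le_mul_of_one_le_left (by linarith) hpR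
            exact h3.trans (le_mul_of_one_le_left (by linarith) hsR)
        _ ≤ (finrank ℚ k : ℝ) ^ (1 - ε) := hle
        _ ≤ (finrank ℚ k : ℝ) ^ (1 : ℝ) := Real.rpow_le_rpow_of_exponent_le hm (by linarith)
        _ = finrank ℚ k := Real.rpow_one _
    have h4 := h _ _ h1 h2
    calc (s : ℝ) * ((p : ℝ) ^ (a + 1) * (e * (frobenii E p a).ncard) *
          Real.exp (18 * Real.sqrt (Real.log (2 * (e * (frobenii E p a).ncard)) * Real.log (2 * n))))
        = (s * (p ^ (a + 1) * (e * (frobenii E p a).ncard))) *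
          Real.exp (18 * Real.sqrt (Real.log (2 * (e * (frobenii E p a).ncard)) *
            Real.log (2 * n))) := by ring
      _ ≤ (finrank ℚ k : ℝ) ^ (1 - ε) * (B * (finrank ℚ k : ℝ) ^ (ε / 2)) :=
          mul_le_mul hle h4 (Real.exp_pos _).le (by positivity)
      _ = B * ((finrank ℚ k : ℝ) ^ (1 - ε) * (finrank ℚ k : ℝ) ^ (ε / 2)) := by ring
      _ = _ := by
          rw [← Real.rpow_add hm0]
          congr 2
          ring

/-- **Margulis' conjecture over fields with few Frobenius automorphisms.**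

1. There is an absolute constant `C` such that if `Γ` is a torsion-free group with a realization of
   size `n` over a number field `k` with set of noncompact embeddings `S`, and `E` is a number field
   which is Galois over `ℚ` such that `k` is contained in an extension of `E` of degree at most `D`,
   then for all `p`, `a ≥ 1` and `e ≥ 1` such that the ramification indices of the prime number `p` in
   `E` are at most `e`, every `γ ≠ 1` in `Γ` has an eigenvalue `l` under an embedding in `S`, which is
   also an eigenvalue of `ρ γ`, with `|l| > 1` and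
   `[k : ℚ] ≤ C (D n) ^ 9 weight E p a e (D n) |S| log |l|`.
2. For every continuous finite dimensional complex representation `ρ` of a topological group `G`, all
   real numbers `A` and all `D` and `n`, the family `Family A D n ρ` is uniformly discrete.
3. For every `ε > 0`, `D` and `n` there is a `c > 0` such that for every continuous finite dimensional
   complex representation `ρ` of a topological group `G` the family `PowerFamily ε D n ρ` is uniformly
   discrete, and such that, if `Γ`, `k` of degree `m`, `S`, `E`, `p`, `a` and `e` are as in 1 and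
   `|S| p ^ (a + 1) e |frobenii E p a| ≤ m ^ (1 - ε)`, every `γ ≠ 1` in `Γ` has an eigenvalue `l` with
   `log |l| ≥ c m ^ (ε / 2)`. -/
theorem result :
    (∃ C : ℝ, 0 < C ∧ ∀ (G : Type u) [Group G] (M : ℕ) (ρ : G →* Matrix (Fin M) (Fin M) ℂ)
      (Γ : Subgroup G) (k : Type) [Field k] [NumberField k] (n : ℕ) (S : Finset (k →+* ℂ))
      (R : Realization ρ Γ k n S), TorsionFree Γ →
      ∀ (E : Type) [Field E] [NumberField E] [IsGalois ℚ E] (D : ℕ), ContainedIn k E D →
      ∀ (p a e : ℕ), p.Prime → 1 ≤ a → 1 ≤ e → RamificationLE E p e →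
      ∀ γ : Γ, γ ≠ 1 → ∃ σ ∈ S, ∃ l : ℂ, IsEig (conjMat σ (R.r γ)) l ∧ IsEig (ρ γ) l ∧ 1 < ‖l‖ ∧
        (finrank ℚ k : ℝ) ≤
          C * (D * n : ℕ) ^ 9 * weight E p a e (D * n) * (S.card * Real.log ‖l‖)) ∧
    (∀ (G : Type u) [Group G] [TopologicalSpace G] (M : ℕ) (ρ : G →* Matrix (Fin M) (Fin M) ℂ),
      Continuous ρ → ∀ (A : ℝ) (D n : ℕ), UniformlyDiscrete (Family A D n ρ)) ∧
    (∀ (ε : ℝ) (D n : ℕ), 0 < ε → ∃ c : ℝ, 0 < c ∧
      (∀ (G : Type u) [Group G] [TopologicalSpace G] (M : ℕ) (ρ : G →* Matrix (Fin M) (Fin M) ℂ),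
        Continuous ρ → UniformlyDiscrete (PowerFamily ε D n ρ)) ∧
      (∀ (G : Type u) [Group G] (M : ℕ) (ρ : G →* Matrix (Fin M) (Fin M) ℂ)
        (Γ : Subgroup G) (k : Type) [Field k] [NumberField k] (S : Finset (k →+* ℂ)),
        Realization ρ Γ k n S → TorsionFree Γ →
        ∀ (E : Type) [Field E] [NumberField E] [IsGalois ℚ E], ContainedIn k E D →
        ∀ (p a e : ℕ), p.Prime → 1 ≤ a → 1 ≤ e → RamificationLE E p e →
        (S.card * (p ^ (a + 1) * (e * (frobenii E p a).ncard)) : ℝ) ≤ (finrank ℚ k : ℝ) ^ (1 - ε) →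
        ∀ γ ∈ Γ, γ ≠ 1 → ∃ l : ℂ, IsEig (ρ γ) l ∧ c * (finrank ℚ k : ℝ) ^ (ε / 2) ≤ Real.log ‖l‖)) := by
  obtain ⟨C, hC, hgap⟩ := Pool.Agent.Run7.h816.MG.gap_frob2
  have aux : ∀ {G : Type u} [Group G] {M : ℕ} {ρ : G →* Matrix (Fin M) (Fin M) ℂ}
      {Γ : Subgroup G} {k : Type} [Field k] [NumberField k] {n : ℕ} {S : Finset (k →+* ℂ)}
      (R : Realization ρ Γ k n S) (_ : TorsionFree Γ)
      (γ : Γ), γ ≠ 1 → ∀ N : ℕ, 0 < N → ¬ IsNilpotent (R.r γ ^ N - 1) := by
    intro G _ M ρ Γ k _ _ n S R htf γ hγ N hN h0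
    rw [← map_pow] at h0
    have h1 := R.unipotent _ h0
    have h2 : (γ : G) ^ N = 1 := congrArg Subtype.val h1
    exact hγ (Subtype.ext (htf _ γ.2 N hN h2))
  have part1 : ∀ (G : Type u) [Group G] (M : ℕ) (ρ : G →* Matrix (Fin M) (Fin M) ℂ)
      (Γ : Subgroup G) (k : Type) [Field k] [NumberField k] (n : ℕ) (S : Finset (k →+* ℂ))
      (R : Realization ρ Γ k n S), TorsionFree Γ →
      ∀ (E : Type) [Field E] [NumberField E] [IsGalois ℚ E] (D : ℕ), ContainedIn k E D →
      ∀ (p a e : ℕ), p.Prime → 1 ≤ a → 1 ≤ e → RamificationLE E p e →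
      ∀ γ : Γ, γ ≠ 1 → ∃ σ ∈ S, ∃ l : ℂ, IsEig (conjMat σ (R.r γ)) l ∧ IsEig (ρ γ) l ∧ 1 < ‖l‖ ∧
        (finrank ℚ k : ℝ) ≤
          C * (D * n : ℕ) ^ 9 * weight E p a e (D * n) * (S.card * Real.log ‖l‖) := by
    intro G _ M ρ Γ k _ _ n S R htf E _ _ _ D ⟨F, _, _, _, _, hD⟩ p a e hp ha he hram γ hγ
    obtain ⟨σ, hσ, l, hl, hl1, hlow⟩ := hgap k E F D hD n S (R.r γ) p a hp ha e he hram
      ((Group.isUnit γ).map R.r) (fun σ hσ l hl => R.comp' _ σ hσ l hl) (aux R htf γ hγ)
    rw [fac_eq] at hlow
    have hl' : IsEig (conjMat σ (R.r γ)) l := hl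
    exact ⟨σ, hσ, l, hl', R.eig σ hσ γ l hl', hl1, hlow⟩
  have part2 : ∀ (G : Type u) [Group G] [TopologicalSpace G] (M : ℕ)
      (ρ : G →* Matrix (Fin M) (Fin M) ℂ),
      Continuous ρ → ∀ (A : ℝ) (D n : ℕ), UniformlyDiscrete (Family A D n ρ) := by
    intro G _ _ M ρ hρ A D n
    have hpos : 0 < C * (D * n : ℕ) ^ 9 * |A| + 1 := by positivity
    obtain ⟨δ, hδ, h⟩ := Pool.Agent.Y399.MG.exists_eps 1 (1 / (C * (D * n : ℕ) ^ 9 * |A| + 1))
      (by positivity)
    refine ⟨_, nhd ρ hρ δ hδ, ?_⟩
    rintro Γ ⟨htf, k, _, _, S, R, E, _, _, _, p, a, e, ⟨F, _, _, _, _, hD⟩, hp, ha, he, hram, hle⟩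
      g v hv hΓ
    refine final_step' R htf δ hδ g v hv hΓ fun hnil => ?_
    have hunit : IsUnit (R.r ⟨g * v * g⁻¹, hΓ⟩) :=
      (Group.isUnit (⟨g * v * g⁻¹, hΓ⟩ : Γ)).map R.r
    obtain ⟨σ, hσ, l, hl, hl1, hlow⟩ := hgap k E F D hD n S _ p a hp ha e he hram
      hunit (fun σ hσ l hl => R.comp' _ σ hσ l hl) hnil
    refine ⟨σ, hσ, l, hl, h l ?_ hl1⟩
    rw [fac_eq] at hlow
    have hlog : 0 < Real.log ‖l‖ := Real.log_pos hl1
    have hm : (0 : ℝ) < finrank ℚ k := by exact_mod_cast (finrank_pos : 0 < finrank ℚ k)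
    have h1 : (finrank ℚ k : ℝ) ≤ (C * (D * n : ℕ) ^ 9 * |A| * Real.log ‖l‖) * finrank ℚ k := by
      calc (finrank ℚ k : ℝ) ≤
            C * (D * n : ℕ) ^ 9 * weight E p a e (D * n) * (S.card * Real.log ‖l‖) := hlow
        _ = C * (D * n : ℕ) ^ 9 * Real.log ‖l‖ * (S.card * weight E p a e (D * n)) := by ring
        _ ≤ C * (D * n : ℕ) ^ 9 * Real.log ‖l‖ * (|A| * finrank ℚ k) := by
            apply mul_le_mul_of_nonneg_left _ (by positivity)
            exact hle.trans (mul_le_mul_of_nonneg_right (le_abs_self A) hm.le)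
        _ = _ := by ring
    have h2 : 1 ≤ C * (D * n : ℕ) ^ 9 * |A| * Real.log ‖l‖ := by
      by_contra hcon
      push Not at hcon
      have := mul_lt_mul_of_pos_right hcon hm
      linarith
    rw [Nat.cast_one, one_mul, div_le_iff₀ hpos]
    linarith
  refine ⟨⟨C, hC, part1⟩, part2, ?_⟩
  intro ε D n hε
  obtain ⟨B, hB, hpw⟩ := power_weight ε hε (D * n)
  have hpos : 0 < C * (D * n : ℕ) ^ 9 * B + 1 := by positivity
  refine ⟨1 / (C * (D * n : ℕ) ^ 9 * B + 1), by positivity, ?_, ?_⟩
  · intro G _ _ M ρ hρ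
    obtain ⟨U, hU, h⟩ := part2 G M ρ hρ B D n
    refine ⟨U, hU, fun Γ hΓ => h Γ ?_⟩
    obtain ⟨htf, k, i1, i2, S, R, E, i3, i4, i5, p, a, e, hD, hp, ha, he, hram, hle⟩ := hΓ
    refine ⟨htf, k, i1, i2, S, R, E, i3, i4, i5, p, a, e, hD, hp, ha, he, hram, ?_⟩
    refine (hpw k S.card (Finset.card_pos.mpr R.nonempty) E p a e hp hle).trans ?_
    have hm : (1 : ℝ) ≤ finrank ℚ k := by exact_mod_cast (finrank_pos : 0 < finrank ℚ k)
    apply mul_le_mul_of_nonneg_left _ hB.le
    calc (finrank ℚ k : ℝ) ^ (1 - ε / 2) ≤ (finrank ℚ k : ℝ) ^ (1 : ℝ) :=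
          Real.rpow_le_rpow_of_exponent_le hm (by linarith)
      _ = finrank ℚ k := Real.rpow_one _
  · intro G _ M ρ Γ k _ _ S R htf E _ _ _ hD p a e hp ha he hram hle γ hγ hγ1
    obtain ⟨σ, hσ, l, -, hl, hl1, hlow⟩ := part1 G M ρ Γ k n S R htf E D hD p a e hp ha he hram
      ⟨γ, hγ⟩ (fun h => hγ1 (congrArg Subtype.val h))
    refine ⟨l, hl, ?_⟩
    have hlog : 0 < Real.log ‖l‖ := Real.log_pos hl1
    have hm : (0 : ℝ) < finrank ℚ k := by exact_mod_cast (finrank_pos : 0 < finrank ℚ k)
    have h1 := hpw k S.card (Finset.card_pos.mpr R.nonempty) E p a e hp hle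
    have h2 : (finrank ℚ k : ℝ) ≤
        (C * (D * n : ℕ) ^ 9 * B * Real.log ‖l‖) * (finrank ℚ k : ℝ) ^ (1 - ε / 2) := by
      calc (finrank ℚ k : ℝ) ≤
            C * (D * n : ℕ) ^ 9 * weight E p a e (D * n) * (S.card * Real.log ‖l‖) := hlow
        _ = C * (D * n : ℕ) ^ 9 * Real.log ‖l‖ * (S.card * weight E p a e (D * n)) := by ring
        _ ≤ C * (D * n : ℕ) ^ 9 * Real.log ‖l‖ * (B * (finrank ℚ k : ℝ) ^ (1 - ε / 2)) :=
            mul_le_mul_of_nonneg_left h1 (by positivity)
        _ = _ := by ring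
    have h3 : (finrank ℚ k : ℝ) = (finrank ℚ k : ℝ) ^ (ε / 2) * (finrank ℚ k : ℝ) ^ (1 - ε / 2) := by
      rw [← Real.rpow_add hm]
      rw [show ε / 2 + (1 - ε / 2) = 1 by ring, Real.rpow_one]
    have h4 : (finrank ℚ k : ℝ) ^ (ε / 2) ≤ C * (D * n : ℕ) ^ 9 * B * Real.log ‖l‖ := by
      have h5 : 0 < (finrank ℚ k : ℝ) ^ (1 - ε / 2) := Real.rpow_pos_of_pos hm _
      exact le_of_mul_le_mul_right (h3.symm.trans_le h2) h5
    rw [one_div, inv_mul_le_iff₀ hpos]
    linarith

end Pool.Agent.Results.MP_162bbe_gt.FewFrobeniusTraceField
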