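import Mathlib
import Pool.Agent.Run7.h816.IN.In7

/-!
# Margulis' injectivity radius conjecture and inertia automorphisms with few conjugates

Let `Γ` be a torsion-free arithmetic group over a number field `k` of degree `m` with set `S` of
noncompact embeddings, realized by integral matrices of size `n`.

Part 1.  Let `τ` be an automorphism of a number field `E` which contains `k`, and let `J` be a product
of distinct prime ideals of `E` such that `τ x ≡ x` modulo `J` for all integers `x` of `E`.  The primes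
may lie above different prime numbers of any size.  Let `c ≥ 1` be such that the norm of `J` is at
least `2 ^ ([E : ℚ] / c)`, and let `r ≥ 1` be such that at least `2 |S| r` embeddings of `k` in `E` have
more than `|S|` images under the powers of `τ`.  Then every `γ ≠ 1` in `Γ` has an eigenvalue `l` with

  `m ≤ 8224 r n ^ ((r + 2) (2 |S| + 2)) c ^ (1 + 2 / r) |S| log |l|`.

Part 2.  Let `E ⊇ k` be Galois over `ℚ`, `p` a prime number with ramification indices at most `e` in `E`
and `τ` an inertia automorphism of `E` at a prime above `p` (it acts trivially on the residue field),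
with `u` conjugates, such that some embedding of `k` in `E` has more than `|S|` images under the powers
of `τ`.  (If `|S| = 1` this means that `τ` does not fix all the conjugates of `k`.)  Then, for every
`ε > 0`, every `γ ≠ 1` in `Γ` has an eigenvalue `l` with `m ≤ C (e u) ^ (1 + ε) log |l|`, where `C`
depends only on `ε`, `n` and a bound of `|S|`.  The size of the ramified prime `p` and its residue
degrees do not matter.

Part 3.  For fixed `ε > 0`, `n` and `s` the groups with `|S| ≤ s` and such a `τ` with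
`e u ≤ m ^ (1 - ε)` form a uniformly discrete family, and the logarithms of the eigenvalues even grow
like `m ^ (ε / 2)`.

`Pool.Agent.H225R3.MargDefs` contains the definitions: `Realization ρ Γ k n S` (a homomorphism `r`
from `Γ` to the `n` by `n` matrices over the ring of integers of the number field `k`, bounded under
all embeddings outside `S`, such that for `σ` in `S` the eigenvalues of `σ (r γ)` are eigenvalues of
`ρ γ`, and such that only `1` is mapped to a unipotent matrix) and `UniformlyDiscrete` (there is an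
identity neighbourhood `U` such that `g U g⁻¹` meets every group of the family in the identity only).

Method.  Let `α` be an eigenvalue of `r γ` which is not a root of unity.  It is a unit of degree at
most `n` over `k`.  Let `K` be a Galois number field which contains `E` and `α`, with Galois group `N`
over `E`.  For each embedding `κ` of `k` in `E` there is a conjugate `α_κ` of `α`, of degree at most `n`
over `κ k`.  The vector of the logarithms of the absolute values of `α_κ` is supported on the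
embeddings `φ` of `K` with `φ κ ∈ S`.  Let `σ` be an extension of `τ` to `K`.

(a) If `α_κ` and `σ α_κ` had the same logarithms, so would `α_κ` and `σ ^ i α_κ`, and all the images of
`κ` under the powers of `τ` would be in the set of the `κ'` with `φ κ' ∈ S`, which has at most `|S|`
elements.  So the logarithmic vectors of `α_κ / σ α_κ` are not zero for the `2 |S| r` embeddings, and
each `φ` is in at most `2 |S|` of the supports.  Hence `r` of these vectors are linearly independent.

(b) Every prime of `K` above `J` has an inertia automorphism which extends `τ`, and there are at most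
`n ^ (2 |S| r)` possibilities for the images of the `α_κ` under the extensions of `τ`.  So there is a
`σ` such that all the products `w` of the `r` independent `α_κ / σ α_κ` with small exponents are
congruent to `1` modulo a large part of the primes above `J`.

(c) The product of the conjugates under `N` of a difference `w - w'` is in `E`, and its norm is large.
The energy of the points `w` at all places of `K` then gives the lower bound of the height of `α`.

(d) For part 2, the primes of `E` above `p` are distributed among the `u` conjugates of `τ`, and the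
product of those which belong to a suitable conjugate has norm at least `p ^ ([E : ℚ] / (e u))`.  As
the Galois group is transitive on the embeddings of `k` in `E`, at least `m / u` of them have more than
`|S|` images.  If `m < 2 |S| r u`, a bound of Dobrowolski's type for units of degree at most `n m` is
sufficient.
-/

set_option autoImplicit false

namespace Pool.Agent.Results.MP_162bbe_gt.InertiaConjugates

open NumberField Module Pool.Agent.H225R3.Marg

universe u

/-- All ramification indices of prime ideals of `E` above `p` are at most `e`. -/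
def RamificationLE (E : Type) [Field E] [NumberField E] (p e : ℕ) : Prop :=
  ∀ P : Ideal (𝓞 E), P.IsPrime → (p : 𝓞 E) ∈ P → (p : 𝓞 E) ∉ P ^ (e + 1)

/-- The automorphism `τ` of `E` is in the inertia group of a prime ideal above `p`: it acts trivially
modulo this prime ideal. -/
def IsInertia {E : Type} [Field E] [NumberField E] (p : ℕ) (τ : E ≃ₐ[ℚ] E) : Prop :=
  ∃ P : Ideal (𝓞 E), P.IsPrime ∧ (p : 𝓞 E) ∈ P ∧ ∀ x : 𝓞 E, τ • x - x ∈ P

/-- The set of the conjugates of `τ` in the automorphism group. -/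
def conjugates {E : Type} [Field E] [NumberField E] (τ : E ≃ₐ[ℚ] E) : Set (E ≃ₐ[ℚ] E) :=
  Set.range fun g => g * τ * g⁻¹

/-- The number of the embeddings `τ ^ i ∘ κ`, `i ≥ 0`. -/
noncomputable def orbitLength {k E : Type} [Field k] [Field E] [NumberField E] (τ : E ≃ₐ[ℚ] E)
    (κ : k →+* E) : ℕ :=
  (Set.range fun i : ℕ => ((τ ^ i : E ≃ₐ[ℚ] E) : E →+* E).comp κ).ncard

/-- There is no element of finite order other than the identity. -/
def TorsionFree {G : Type*} [Group G] (Γ : Subgroup G) : Prop :=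
  ∀ γ ∈ Γ, ∀ N : ℕ, 0 < N → γ ^ N = 1 → γ = 1

/-- Every `γ ≠ 1` in `Γ` has an eigenvalue `l` under an embedding in `S`, which is also an eigenvalue of
`ρ γ`, with `|l| > 1` and `[k : ℚ] ≤ B log |l|`. -/
def Gap {G : Type*} [Group G] {M : ℕ} {ρ : G →* Matrix (Fin M) (Fin M) ℂ} {Γ : Subgroup G}
    {k : Type} [Field k] [NumberField k] {n : ℕ} {S : Finset (k →+* ℂ)} (R : Realization ρ Γ k n S)
    (B : ℝ) : Prop :=
  ∀ γ : Γ, γ ≠ 1 → ∃ σ ∈ S, ∃ l : ℂ, IsEig (conjMat σ (R.r γ)) l ∧ IsEig (ρ γ) l ∧ 1 < ‖l‖ ∧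
    (finrank ℚ k : ℝ) ≤ B * Real.log ‖l‖

/-- The automorphism `τ` of `E` is trivial modulo the product `J` of distinct prime ideals, the norm
of `J` is at least `2 ^ ([E : ℚ] / c)`, `c ≥ 1`, `r ≥ 1`, and at least `2 s r` embeddings of `k` in `E`
have more than `s` images under the powers of `τ`. -/
def TrivialModulo (k E : Type) [Field k] [NumberField k] [Field E] [NumberField E]
    (τ : E ≃ₐ[ℚ] E) (J : Ideal (𝓞 E)) (c : ℝ) (r s : ℕ) : Prop :=
  J ≠ ⊥ ∧ Squarefree J ∧ (∀ x : 𝓞 E, τ • x - x ∈ J) ∧ 1 ≤ c ∧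
    finrank ℚ E * Real.log 2 ≤ c * Real.log (Ideal.absNorm J) ∧ 1 ≤ r ∧
    ∃ X : Finset (k →+* E), 2 * s * r ≤ X.card ∧ ∀ κ ∈ X, s < orbitLength τ κ

/-- The prime number `p` has ramification indices at most `e ≥ 1` in `E`, and `τ` is an inertia
automorphism of `E` above `p`, such that some embedding of `k` in `E` has more than `s` images under
the powers of `τ`. -/
def InertiaData (k E : Type) [Field k] [NumberField k] [Field E] [NumberField E] (p e : ℕ)
    (τ : E ≃ₐ[ℚ] E) (s : ℕ) : Prop :=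
  p.Prime ∧ 1 ≤ e ∧ RamificationLE E p e ∧ IsInertia p τ ∧ ∃ κ : k →+* E, s < orbitLength τ κ

/-- The subgroup `Γ` of `G` is torsion-free and has a realization by matrices of size `n` over the
number field `k` of degree `m`, with a set `S` of at most `s` noncompact embeddings, such that for a
number field `E` which contains `k` and is Galois over `ℚ`, and for a prime number `p` with
ramification indices at most `e ≥ 1` in `E`, there is an inertia automorphism `τ` of `E` above `p`
with the following two properties: some embedding of `k` in `E` has more than `|S|` images under the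
powers of `τ`, and `e` times the number of the conjugates of `τ` is at most `m ^ (1 - ε)`. -/
def Admissible (ε : ℝ) (n s : ℕ) {G : Type*} [Group G] {M : ℕ}
    (ρ : G →* Matrix (Fin M) (Fin M) ℂ) (Γ : Subgroup G) (k : Type) [Field k] [NumberField k] : Prop :=
  TorsionFree Γ ∧ ∃ (S : Finset (k →+* ℂ)) (_ : Realization ρ Γ k n S) (E : Type) (_ : Field E)
    (_ : NumberField E) (_ : IsGalois ℚ E) (_ : Algebra k E) (p e : ℕ) (τ : E ≃ₐ[ℚ] E),
    S.card ≤ s ∧ InertiaData k E p e τ S.card ∧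
    ((e * (conjugates τ).ncard : ℕ) : ℝ) ≤ (finrank ℚ k : ℝ) ^ (1 - ε)

/-- The subgroups `Γ` of `G` with `Admissible ε n s ρ Γ k` for some number field `k`. -/
def Family (ε : ℝ) (n s : ℕ) {G : Type*} [Group G] {M : ℕ}
    (ρ : G →* Matrix (Fin M) (Fin M) ℂ) : Set (Subgroup G) :=
  {Γ | ∃ (k : Type) (_ : Field k) (_ : NumberField k), Admissible ε n s ρ Γ k}

/-- the eigenvalues outside `S` have absolute value one -/
lemma norm_one {G : Type u} [Group G] {M : ℕ} {ρ : G →* Matrix (Fin M) (Fin M) ℂ}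
    {Γ : Subgroup G} {k : Type} [Field k] [NumberField k] {n : ℕ} {S : Finset (k →+* ℂ)}
    (R : Realization ρ Γ k n S) (γ : Γ) (σ : k →+* ℂ) (hσ : σ ∉ S) (l : ℂ)
    (h : ((emb σ).mapMatrix (R.r γ)).charpoly.IsRoot l) : ‖l‖ = 1 := by
  have h1 : ‖l‖ ≤ 1 := R.comp' γ σ hσ l h
  have e1 : (emb σ).mapMatrix (R.r γ) * (emb σ).mapMatrix (R.r γ⁻¹) = 1 := by
    rw [← map_mul, ← map_mul, mul_inv_cancel, map_one, map_one]
  have e2 : (emb σ).mapMatrix (R.r γ⁻¹) * (emb σ).mapMatrix (R.r γ) = 1 := by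
    rw [← map_mul, ← map_mul, inv_mul_cancel, map_one, map_one]
  set v : (Matrix (Fin n) (Fin n) ℂ)ˣ := ⟨_, _, e1, e2⟩ with hv
  have h2 : l ∈ spectrum ℂ (v : Matrix (Fin n) (Fin n) ℂ) := by
    rw [Matrix.mem_spectrum_iff_isRoot_charpoly]
    exact h
  have hl0 : l ≠ 0 := by
    rintro rfl
    exact (spectrum.zero_notMem_iff _).mpr v.isUnit h2
  have h3 : l⁻¹ ∈ spectrum ℂ ((v⁻¹ : (Matrix (Fin n) (Fin n) ℂ)ˣ) : Matrix (Fin n) (Fin n) ℂ) := by
    apply spectrum.inv₀_mem_iff.mp
    rwa [inv_inv]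
  rw [Matrix.mem_spectrum_iff_isRoot_charpoly] at h3
  have h4 : ‖l⁻¹‖ ≤ 1 := R.comp' γ⁻¹ σ hσ l⁻¹ h3
  rw [norm_inv] at h4
  have h5 : 0 < ‖l‖ := norm_pos_iff.mpr hl0
  have h6 : 1 ≤ ‖l‖ := by
    rwa [inv_le_one₀ h5] at h4
  exact le_antisymm h1 h6

/-- **Margulis' conjecture and inertia automorphisms with few conjugates.** -/
theorem result :
    (∀ (G : Type u) [Group G] (M : ℕ) (ρ : G →* Matrix (Fin M) (Fin M) ℂ)
      (Γ : Subgroup G) (k : Type) [Field k] [NumberField k] (n : ℕ) (S : Finset (k →+* ℂ))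
      (R : Realization ρ Γ k n S), TorsionFree Γ →
      ∀ (E : Type) [Field E] [NumberField E] [Algebra k E] (τ : E ≃ₐ[ℚ] E) (J : Ideal (𝓞 E)) (c : ℝ)
        (r : ℕ), TrivialModulo k E τ J c r S.card →
      Gap R (8224 * r * (n : ℝ) ^ ((r + 2) * (2 * S.card + 2)) * c ^ (1 + 2 / (r : ℝ)) * S.card)) ∧
    (∀ (ε : ℝ) (n s : ℕ), 0 < ε → ∃ C : ℝ, 0 < C ∧
      ∀ (G : Type u) [Group G] (M : ℕ) (ρ : G →* Matrix (Fin M) (Fin M) ℂ)
      (Γ : Subgroup G) (k : Type) [Field k] [NumberField k] (S : Finset (k →+* ℂ))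
      (R : Realization ρ Γ k n S), TorsionFree Γ → S.card ≤ s →
      ∀ (E : Type) [Field E] [NumberField E] [IsGalois ℚ E] [Algebra k E] (p e : ℕ) (τ : E ≃ₐ[ℚ] E),
      InertiaData k E p e τ S.card → Gap R (C * ((e * (conjugates τ).ncard : ℕ) : ℝ) ^ (1 + ε))) ∧
    (∀ (ε : ℝ) (n s : ℕ), 0 < ε → ∃ c : ℝ, 0 < c ∧
      (∀ (G : Type u) [Group G] [TopologicalSpace G] (M : ℕ) (ρ : G →* Matrix (Fin M) (Fin M) ℂ),
        Continuous ρ → UniformlyDiscrete (Family ε n s ρ)) ∧
      (∀ (G : Type u) [Group G] (M : ℕ) (ρ : G →* Matrix (Fin M) (Fin M) ℂ)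
        (Γ : Subgroup G) (k : Type) [Field k] [NumberField k], Admissible ε n s ρ Γ k →
        ∀ γ ∈ Γ, γ ≠ 1 → ∃ l : ℂ, IsEig (ρ γ) l ∧ c * (finrank ℚ k : ℝ) ^ (ε / 2) ≤ Real.log ‖l‖)) := by
  have aux : ∀ {G : Type u} [Group G] {M : ℕ} {ρ : G →* Matrix (Fin M) (Fin M) ℂ}
      {Γ : Subgroup G} {k : Type} [Field k] [NumberField k] {n : ℕ} {S : Finset (k →+* ℂ)}
      (R : Realization ρ Γ k n S) (_ : TorsionFree Γ)
      (γ : Γ), γ ≠ 1 → ∀ N : ℕ, 0 < N → ¬ IsNilpotent (R.r γ ^ N - 1) := by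
    intro G _ M ρ Γ k _ _ n S R htf γ hγ N hN h0
    rw [← map_pow] at h0
    have h1 := R.unipotent _ h0
    have h2 : (γ : G) ^ N = 1 := congrArg Subtype.val h1
    exact hγ (Subtype.ext (htf _ γ.2 N hN h2))
  -- the power of the degree
  have pw : ∀ (ε C m w y : ℝ), 0 < ε → 0 < C → 1 ≤ m → 1 ≤ w → w ≤ m ^ (1 - ε) → 0 < y →
      m ≤ C * w ^ (1 + ε / 2) * y → 1 / C * m ^ (ε / 2) ≤ y := by
    intro ε C m w y hε hC hm hw hwm hy hle
    have hm0 : 0 < m := by linarith
    have h1 : w ^ (1 + ε / 2) ≤ m ^ (1 - ε / 2) := by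
      calc w ^ (1 + ε / 2) ≤ (m ^ (1 - ε)) ^ (1 + ε / 2) :=
            Real.rpow_le_rpow (by linarith) hwm (by linarith)
        _ = m ^ ((1 - ε) * (1 + ε / 2)) := (Real.rpow_mul hm0.le _ _).symm
        _ ≤ m ^ (1 - ε / 2) := Real.rpow_le_rpow_of_exponent_le hm (by nlinarith)
    have h2 : m ≤ (C * y) * m ^ (1 - ε / 2) := by
      calc m ≤ C * w ^ (1 + ε / 2) * y := hle
        _ ≤ C * m ^ (1 - ε / 2) * y := by gcongr
        _ = _ := by ring
    have h3 : m = m ^ (ε / 2) * m ^ (1 - ε / 2) := by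
      rw [← Real.rpow_add hm0, show ε / 2 + (1 - ε / 2) = 1 by ring, Real.rpow_one]
    have h4 : m ^ (ε / 2) ≤ C * y :=
      le_of_mul_le_mul_right (h3.symm.trans_le h2) (Real.rpow_pos_of_pos hm0 _)
    rw [one_div, inv_mul_le_iff₀ hC]
    exact h4
  have w1 : ∀ {E : Type} [Field E] [NumberField E] (τ : E ≃ₐ[ℚ] E) (e : ℕ), 1 ≤ e →
      (1 : ℝ) ≤ ((e * (conjugates τ).ncard : ℕ) : ℝ) := by
    intro E _ _ τ e he
    have h1 : 1 ≤ (conjugates τ).ncard := Pool.Agent.Run7.h816.IN.conjs_pos τ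
    have h2 : 1 ≤ e * (conjugates τ).ncard := Nat.mul_pos he h1
    exact_mod_cast h2
  refine ⟨?_, ?_, ?_⟩
  · intro G _ M ρ Γ k _ _ n S R htf E _ _ _ τ J c r ⟨hJ0, hJ, hτ, hc, hcJ, hr, X, hX, hXo⟩ γ hγ
    obtain ⟨σ, hσ, l, hl, hl1, hlow⟩ := Pool.Agent.Run7.h816.IN.gap_cong k E τ hJ0 hJ hτ hc hcJ n S
      (R.r γ) hr X hX hXo ((Group.isUnit γ).map R.r) (fun σ hσ l hl => norm_one R γ σ hσ l hl)
      (aux R htf γ hγ)
    have hl' : IsEig (conjMat σ (R.r γ)) l := hl
    refine ⟨σ, hσ, l, hl', R.eig σ hσ γ l hl', hl1, hlow.trans (le_of_eq ?_)⟩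
    ring
  · intro ε n s hε
    obtain ⟨C, hC, h⟩ := Pool.Agent.Run7.h816.IN.gap_inertia ε hε n s
    refine ⟨C, hC, ?_⟩
    intro G _ M ρ Γ k _ _ S R htf hs E _ _ _ _ p e τ ⟨hp, he, hram, ⟨P, hP, hpP, hτ⟩, hκ⟩ γ hγ
    obtain ⟨σ, hσ, l, hl, hl1, hlow⟩ := h k E p e hp he hram τ P hP hpP hτ S (R.r γ) hs hκ
      ((Group.isUnit γ).map R.r) (fun σ hσ l hl => norm_one R γ σ hσ l hl) (aux R htf γ hγ)
    have hl' : IsEig (conjMat σ (R.r γ)) l := hl
    exact ⟨σ, hσ, l, hl', R.eig σ hσ γ l hl', hl1, hlow⟩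
  · intro ε n s hε
    obtain ⟨C, hC, h⟩ := Pool.Agent.Run7.h816.IN.gap_inertia (ε / 2) (by linarith) n s
    refine ⟨1 / C, by positivity, ?_, ?_⟩
    · intro G _ _ M ρ hρ
      obtain ⟨δ, hδ, hl⟩ := Pool.Agent.Y399.MG.exists_eps 1 (1 / C) (by positivity)
      refine ⟨_, nhd ρ hρ δ hδ, ?_⟩
      rintro Γ ⟨k, _, _, htf, S, R, E, _, _, _, _, p, e, τ, hs, ⟨hp, he, hram, ⟨P, hP, hpP, hτ⟩, hκ⟩, hle⟩
        g v hv hΓ
      refine final_step' R htf δ hδ g v hv hΓ fun hnil => ?_
      have hunit : IsUnit (R.r ⟨g * v * g⁻¹, hΓ⟩) :=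
        (Group.isUnit (⟨g * v * g⁻¹, hΓ⟩ : Γ)).map R.r
      obtain ⟨σ, hσ, l, hlr, hl1, hlow⟩ := h k E p e hp he hram τ P hP hpP hτ S _ hs hκ
        hunit (fun σ hσ l hl => norm_one R _ σ hσ l hl) hnil
      refine ⟨σ, hσ, l, hlr, hl l ?_ hl1⟩
      have hm : (1 : ℝ) ≤ finrank ℚ k := by exact_mod_cast (finrank_pos : 0 < finrank ℚ k)
      have h1 := pw ε C _ _ _ hε hC hm (w1 τ e he) hle (Real.log_pos hl1) hlow
      have h2 : (1 : ℝ) ≤ (finrank ℚ k : ℝ) ^ (ε / 2) := Real.one_le_rpow hm (by linarith)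
      have h3 : 1 / C ≤ 1 / C * (finrank ℚ k : ℝ) ^ (ε / 2) :=
        le_mul_of_one_le_right (by positivity) h2
      rw [Nat.cast_one, one_mul]
      linarith
    · intro G _ M ρ Γ k _ _ ⟨htf, S, R, E, _, _, _, _, p, e, τ, hs, ⟨hp, he, hram, ⟨P, hP, hpP, hτ⟩, hκ⟩,
        hle⟩ γ hγ hγ1
      obtain ⟨σ, hσ, l, hlr, hl1, hlow⟩ := h k E p e hp he hram τ P hP hpP hτ S (R.r ⟨γ, hγ⟩) hs hκ
        ((Group.isUnit (⟨γ, hγ⟩ : Γ)).map R.r) (fun σ hσ l hl => norm_one R _ σ hσ l hl)
        (aux R htf ⟨γ, hγ⟩ (fun h => hγ1 (congrArg Subtype.val h)))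
      have hl' : IsEig (conjMat σ (R.r ⟨γ, hγ⟩)) l := hlr
      refine ⟨l, R.eig σ hσ ⟨γ, hγ⟩ l hl', ?_⟩
      have hm : (1 : ℝ) ≤ finrank ℚ k := by exact_mod_cast (finrank_pos : 0 < finrank ℚ k)
      exact pw ε C _ _ _ hε hC hm (w1 τ e he) hle (Real.log_pos hl1) hlow

end Pool.Agent.Results.MP_162bbe_gt.InertiaConjugates
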